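import Mathlib

/-!
# MP_691331_co: the Nordhaus-Gaddum inequality fails for independent monophonic position colourings

The graph is bipartite with classes `{0,...,4}` and `{5,...,13}`, and every three pairwise
nonadjacent vertices lie on an induced path which ends in two of them. So the classes of an
independent mp-colouring have at most two vertices; in the complement the nine vertices `5,...,13`
are in different classes.
-/

set_option autoImplicit false
set_option maxRecDepth 100000

namespace Pool.Agent.Results.MP_691331_co.MonophonicNordhausGaddum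

open Finset

section defs

variable {V : Type}

/-- `X` is in monophonic position: no induced path between two elements of `X` contains a third -/
def IsMonophonicPosition (G : SimpleGraph V) (X : Set V) : Prop :=
  ∀ u ∈ X, ∀ v ∈ X, u ≠ v → ∀ p : G.Walk u v, p.IsPath → p.IsChordless →
    ∀ w ∈ p.support, w ∈ X → w = u ∨ w = v

/-- `X` is an independent set of `G` in monophonic position -/
def IsIndependentMP (G : SimpleGraph V) (X : Set V) : Prop :=
  (∀ u ∈ X, ∀ v ∈ X, ¬ G.Adj u v) ∧ IsMonophonicPosition G X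

/-- the independent mp-chromatic number: the least number `r` such that the vertices can be
partitioned into (at most) `r` independent sets in monophonic position -/
noncomputable def chiMP (G : SimpleGraph V) : ℕ :=
  sInf {r | ∃ c : V → Fin r, ∀ i, IsIndependentMP G {v | c v = i}}

end defs

/-- the adjacency matrix: bit `14 x + y` -/
def tbl : ℕ := 122604881451007771978637437749389889663172783569650583904

/-- adjacency of the graph -/
def adjB (x y : Fin 14) : Bool := tbl.testBit (14 * x.val + y.val)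

theorem adj_symm : ∀ x y : Fin 14, adjB x y = true → adjB y x = true := by decide +kernel

theorem adj_irrefl : ∀ x : Fin 14, adjB x x ≠ true := by decide +kernel

/-- the graph -/
def gr : SimpleGraph (Fin 14) where
  Adj x y := adjB x y = true
  symm := ⟨adj_symm⟩
  loopless := ⟨adj_irrefl⟩

instance : DecidableRel gr.Adj := fun x y => inferInstanceAs (Decidable (adjB x y = true))

/-- the induced paths -/
def paths : List (List (Fin 14)) := [
  [0, 5, 1, 7, 4, 13, 2, 10, 3],
  [5, 0, 11, 2, 10, 3, 9, 4, 7],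
  [7, 1, 5, 0, 6, 3, 10, 2, 13],
  [10, 3, 12, 1, 5, 0, 8, 4, 13],
  [0, 8, 4, 7, 1, 12, 3, 10],
  [1, 9, 3, 6, 0, 8, 2, 13],
  [2, 8, 0, 6, 3, 9, 1, 7],
  [3, 9, 4, 13, 2, 11, 0, 5],
  [0, 5, 1, 9, 4, 13, 2],
  [1, 7, 4, 6, 3, 10, 2],
  [3, 10, 2, 11, 1, 7, 4],
  [5, 0, 8, 2, 10, 3, 9],
  [5, 0, 8, 4, 9, 3, 12],
  [5, 1, 11, 2, 8, 4, 6],
  [6, 0, 8, 2, 12, 1, 9],
  [6, 0, 5, 1, 12, 2, 10],
  [7, 1, 9, 3, 10, 2, 8],
  [7, 4, 6, 0, 11, 2, 12],
  [7, 4, 6, 3, 10, 2, 11],
  [8, 0, 11, 1, 9, 3, 10],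
  [8, 4, 6, 3, 12, 1, 11],
  [9, 1, 5, 0, 8, 2, 13],
  [9, 4, 6, 0, 11, 2, 10],
  [11, 1, 12, 3, 6, 4, 13],
  [12, 1, 5, 0, 8, 4, 13],
  [4, 6, 0, 5, 1, 12, 2, 10],
  [0, 8, 4, 9, 1, 12],
  [1, 9, 3, 6, 0, 8],
  [4, 8, 2, 11, 1, 5],
  [5, 1, 9, 3, 10, 2, 8],
  [5, 1, 12, 2, 13, 4, 6],
  [6, 4, 7, 1, 11, 2, 10],
  [7, 1, 12, 3, 6, 0, 8],
  [9, 3, 6, 0, 11, 2, 13],
  [11, 0, 8, 4, 9, 3, 12],
  [7, 1, 9, 3, 6, 0, 8, 2, 13],
  [0, 8, 4, 7, 1],
  [5, 0, 8, 2, 13],
  [5, 0, 8, 4, 7],
  [5, 0, 11, 2, 10],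
  [5, 0, 11, 2, 12],
  [5, 0, 11, 2, 13],
  [5, 0, 6, 3, 9],
  [5, 0, 6, 4, 7],
  [5, 1, 11, 2, 8],
  [5, 1, 12, 2, 10],
  [6, 0, 8, 2, 10],
  [6, 0, 8, 2, 12],
  [6, 0, 8, 2, 13],
  [6, 0, 11, 1, 9],
  [6, 0, 11, 1, 12],
  [6, 3, 9, 1, 7],
  [6, 3, 10, 2, 13],
  [6, 3, 12, 2, 13],
  [7, 1, 9, 3, 10],
  [7, 1, 11, 0, 8],
  [7, 1, 11, 2, 13],
  [7, 1, 12, 2, 10],
  [7, 1, 12, 2, 13],
  [7, 4, 9, 3, 12],
  [8, 0, 11, 1, 9],
  [8, 2, 12, 1, 9],
  [9, 1, 12, 2, 10],
  [9, 1, 12, 2, 13],
  [9, 3, 10, 2, 13],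
  [10, 3, 12, 1, 11],
  [11, 0, 8, 4, 13],
  [0, 6, 3, 9, 1, 7],
  [3, 6, 0, 8, 2, 13],
  [4, 6, 0, 11, 2, 10],
  [5, 0, 11, 2, 10, 3, 9],
  [7, 4, 9, 3, 10, 2, 11],
  [8, 0, 11, 1, 12, 3, 10],
  [5, 0, 11, 2, 12, 3, 9, 4, 7],
  [10, 3, 12, 1, 11, 0, 8, 4, 13]]

/-- the walk given by the list `l` is an induced path between different vertices: consecutive
entries are adjacent, and no others -/
def good (l : List (Fin 14)) : Bool :=
  decide (l ≠ []) && decide (l.head? ≠ l.getLast?) && decide (l.IsChain (fun x y => adjB x y = true)) && decide l.Nodup &&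
    decide (∀ x ∈ l, ∀ y ∈ l, adjB x y = true → (x, y) ∈ l.zip l.tail ∨ (y, x) ∈ l.zip l.tail)

theorem good_all : ∀ l ∈ paths, good l = true := by decide +kernel

/-- the first and the last entry of `l` are among `a`, `b`, `c`, and these are in `l` -/
def hits (l : List (Fin 14)) (a b c : Fin 14) : Bool :=
  l.contains a && l.contains b && l.contains c &&
    (l.head? == some a || l.head? == some b || l.head? == some c) &&
    (l.getLast? == some a || l.getLast? == some b || l.getLast? == some c)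

theorem cover : ∀ a b c : Fin 14, a < b → b < c → adjB a b = false → adjB a c = false →
    adjB b c = false → paths.any (fun l => hits l a b c) = true := by
  decide +kernel

theorem indep_big : ∀ a b : Fin 14, 5 ≤ a.val → 5 ≤ b.val → adjB a b = false := by
  decide +kernel

theorem edges_of_zip {V : Type} {G : SimpleGraph V} :
    ∀ (l : List V) (hne : l ≠ []) (hc : l.IsChain G.Adj) (x y : V), (x, y) ∈ l.zip l.tail →
      s(x, y) ∈ (SimpleGraph.Walk.ofSupport l hne hc).edges
  | [], hne, _, _, _, _ => absurd rfl hne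
  | [_], _, _, _, _, h => by simp at h
  | a :: b :: l, _, hc, x, y, h => by
    have e : (SimpleGraph.Walk.ofSupport (a :: b :: l) (List.cons_ne_nil _ _) hc).edges =
        s(a, b) :: (SimpleGraph.Walk.ofSupport (b :: l) (List.cons_ne_nil _ _) hc.of_cons).edges :=
      rfl
    rw [e, List.mem_cons]
    have h1 : (x, y) ∈ (a, b) :: (b :: l).zip (b :: l).tail := h
    rw [List.mem_cons] at h1
    rcases h1 with h1 | h1
    · left
      rw [Prod.mk.injEq] at h1
      rw [h1.1, h1.2]
    · right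
      exact edges_of_zip (b :: l) _ hc.of_cons x y h1

theorem no_three (X : Set (Fin 14)) (h : IsIndependentMP gr X) (a b c : Fin 14) (hab : a < b)
    (hbc : b < c) (ha : a ∈ X) (hb : b ∈ X) (hc : c ∈ X) : False := by
  have n1 : adjB a b = false := Bool.eq_false_iff.2 (h.1 a ha b hb)
  have n2 : adjB a c = false := Bool.eq_false_iff.2 (h.1 a ha c hc)
  have n3 : adjB b c = false := Bool.eq_false_iff.2 (h.1 b hb c hc)
  have hcov := cover a b c hab hbc n1 n2 n3
  rw [List.any_eq_true] at hcov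
  obtain ⟨l, hl, hh⟩ := hcov
  have hg := good_all l hl
  simp only [good, Bool.and_eq_true, decide_eq_true_eq] at hg
  obtain ⟨⟨⟨⟨g0, g1⟩, g2⟩, g3⟩, g4⟩ := hg
  simp only [hits, Bool.and_eq_true, Bool.or_eq_true, List.contains_iff_mem, beq_iff_eq] at hh
  obtain ⟨⟨⟨⟨ma, mb⟩, mc⟩, m1⟩, m2⟩ := hh
  rw [List.head?_eq_some_head g0] at m1 g1
  rw [List.getLast?_eq_some_getLast g0] at m2 g1
  simp only [Option.some.injEq] at m1 m2
  have hne : l.head g0 ≠ l.getLast g0 := fun he => g1 (by rw [he])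
  have hu : l.head g0 ∈ X := by
    rcases m1 with (m1 | m1) | m1 <;> rw [m1] <;> assumption
  have hv : l.getLast g0 ∈ X := by
    rcases m2 with (m2 | m2) | m2 <;> rw [m2] <;> assumption
  have hc2 : l.IsChain gr.Adj := g2
  have key := h.2 _ hu _ hv hne (SimpleGraph.Walk.ofSupport l g0 hc2)
    (by
      rw [SimpleGraph.Walk.isPath_def, SimpleGraph.Walk.support_ofSupport]
      exact g3)
    (by
      rw [SimpleGraph.Walk.isChordless_iff_forall_mem_edges]
      intro x y hx hy hxy
      rw [SimpleGraph.Walk.support_ofSupport] at hx hy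
      rcases g4 x hx y hy hxy with h1 | h1
      · exact edges_of_zip l g0 hc2 x y h1
      · rw [Sym2.eq_swap]
        exact edges_of_zip l g0 hc2 y x h1)
  rw [SimpleGraph.Walk.support_ofSupport] at key
  have ka := key a ma ha
  have kb := key b mb hb
  have kc := key c mc hc
  have hac : a ≠ c := (hab.trans hbc).ne
  have hab' : a ≠ b := hab.ne
  have hbc' : b ≠ c := hbc.ne
  rcases ka with ka | ka <;> rcases kb with kb | kb <;> rcases kc with kc | kc <;>
    first
      | exact hab' (ka.trans kb.symm)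
      | exact hac (ka.trans kc.symm)
      | exact hbc' (kb.trans kc.symm)

theorem no_three' (X : Set (Fin 14)) (h : IsIndependentMP gr X) (a b c : Fin 14) (hab : a ≠ b)
    (hac : a ≠ c) (hbc : b ≠ c) (ha : a ∈ X) (hb : b ∈ X) (hc : c ∈ X) : False := by
  rcases lt_or_gt_of_ne hab with h1 | h1 <;> rcases lt_or_gt_of_ne hac with h2 | h2 <;>
    rcases lt_or_gt_of_ne hbc with h3 | h3 <;>
    first
      | exact no_three X h a b c h1 h3 ha hb hc
      | exact no_three X h a c b h2 h3 ha hc hb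
      | exact no_three X h b a c h1 h2 hb ha hc
      | exact no_three X h b c a h3 h2 hb hc ha
      | exact no_three X h c a b h2 h1 hc ha hb
      | exact no_three X h c b a h3 h1 hc hb ha

theorem exists_colouring (G : SimpleGraph (Fin 14)) :
    {r | ∃ c : Fin 14 → Fin r, ∀ i, IsIndependentMP G {v | c v = i}}.Nonempty := by
  refine ⟨14, id, fun i => ⟨?_, ?_⟩⟩
  · intro u hu v hv h
    have e1 : u = i := hu
    have e2 : v = i := hv
    rw [e1, e2] at h
    exact G.loopless.irrefl _ h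
  · intro u hu v hv hne
    have e1 : u = i := hu
    have e2 : v = i := hv
    exact absurd (e1.trans e2.symm) hne

theorem seven_le : 7 ≤ chiMP gr := by
  refine le_csInf (exists_colouring gr) ?_
  rintro r ⟨c, hc⟩
  have h1 : (univ : Finset (Fin 14)).card ≤ 2 * (univ.image c).card := by
    refine Finset.card_le_mul_card_image univ 2 fun i _ => ?_
    by_contra hcon
    push Not at hcon
    obtain ⟨x, hx, y, hy, z, hz, hxy, hxz, hyz⟩ := Finset.two_lt_card.1 hcon
    exact no_three' _ (hc i) x y z hxy hxz hyz (mem_filter.1 hx).2 (mem_filter.1 hy).2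
      (mem_filter.1 hz).2
  have h2 : (univ.image c).card ≤ r := by
    calc (univ.image c).card ≤ (univ : Finset (Fin r)).card := card_le_card (subset_univ _)
      _ = r := by rw [Finset.card_univ, Fintype.card_fin]
  rw [Finset.card_univ, Fintype.card_fin] at h1
  omega

theorem nine_le : 9 ≤ chiMP grᶜ := by
  refine le_csInf (exists_colouring grᶜ) ?_
  rintro r ⟨c, hc⟩
  have h1 : (univ.filter (fun x : Fin 14 => 5 ≤ x.val)).card ≤ (univ : Finset (Fin r)).card := by
    refine Finset.card_le_card_of_injOn c (fun _ _ => mem_coe.2 (mem_univ _)) ?_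
    intro x hx y hy hxy
    by_contra hne
    have h2 : ¬ (grᶜ).Adj x y := (hc (c y)).1 x hxy y rfl
    rw [SimpleGraph.compl_adj, not_and, not_not] at h2
    have h3 : adjB x y = true := h2 hne
    rw [indep_big x y (mem_filter.1 hx).2 (mem_filter.1 hy).2] at h3
    exact absurd h3 (by decide)
  have h4 : (univ.filter (fun x : Fin 14 => 5 ≤ x.val)).card = 9 := by decide
  rw [h4, Finset.card_univ, Fintype.card_fin] at h1
  exact h1

/-- There is a graph `G` on 14 vertices for which the independent mp-chromatic numbers of `G` and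
its complement have sum at least `14 + 2`. -/
theorem result : ∃ G : SimpleGraph (Fin 14), 14 + 2 ≤ chiMP G + chiMP Gᶜ :=
  ⟨gr, by
    have h1 := seven_le
    have h2 := nine_le
    omega⟩

end Pool.Agent.Results.MP_691331_co.MonophonicNordhausGaddum
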